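import Pool.Agent.H91.ZSMain

set_option autoImplicit false

/-!
# Product-one subsequences in index order: the counting theorem
-/

namespace Pool.Agent.H91.ZS

open MvPolynomial

variable {G : Type*} [Group G]

theorem rat_w {D ℓ : ℕ} (h0 : 0 < ℓ) (hd : ℓ ∣ D) : ((D / ℓ : ℕ) : ℚ) = D * ((1 : ℚ) / ℓ) := by
  rw [Nat.cast_div hd (by exact_mod_cast h0.ne')]; ring

/-- A sublist of the increasing list of all indices is the increasing list of its entries. -/
theorem sub_sort {m : ℕ} {L : List (Fin m)}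
    (hL : L.Sublist ((Finset.univ : Finset (Fin m)).sort (· ≤ ·))) :
    L.Nodup ∧ L.toFinset.sort (· ≤ ·) = L := by
  have h1 : L.Nodup := (Finset.sort_nodup _ _).sublist hL
  refine ⟨h1, (List.toFinset_sort (· ≤ ·) h1).2 ?_⟩
  exact (Finset.pairwise_sort _ _).sublist hL

theorem sum_w {m : ℕ} (g : Fin m → G) (D : ℕ) (hg : ∀ k, 0 < orderOf (g k))
    (hd : ∀ k, orderOf (g k) ∣ D) {L : List (Fin m)} (hL : L.Nodup) :
    (((L.map (fun k => D / orderOf (g k))).sum : ℕ) : ℚ) =
      D * ∑ k ∈ L.toFinset, (1 : ℚ) / orderOf (g k) := by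
  rw [← List.sum_toFinset _ hL, Nat.cast_sum, Finset.mul_sum]
  exact Finset.sum_congr rfl fun k _ => rat_w (hg k) (hd k)

/-- A sequence of length `m` without a product-one subsequence (in index order) of weight at
most one has at least `m` products different from the identity of weight at most `1 - 1/N`. -/
theorem card_le (m N : ℕ) (g : Fin m → G) (hg : ∀ k, 0 < orderOf (g k))
    (hN : ∀ k, orderOf (g k) ≤ N)
    (hvalid : ∀ K : Finset (Fin m), K.Nonempty → ((K.sort (· ≤ ·)).map g).prod = 1 →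
      1 < ∑ k ∈ K, (1 : ℚ) / orderOf (g k))
    (R : Finset G) (h1R : 1 ∉ R)
    (hR : ∀ K : Finset (Fin m), ((K.sort (· ≤ ·)).map g).prod ≠ 1 →
      ∑ k ∈ K, (1 : ℚ) / orderOf (g k) ≤ 1 - 1 / N → ((K.sort (· ≤ ·)).map g).prod ∈ R) :
    m ≤ R.card := by
  classical
  by_contra hcon
  push Not at hcon
  have hm : 0 < m := by omega
  have hN0 : 0 < N := (hg ⟨0, hm⟩).trans_le (hN _)
  set D : ℕ := N.factorial with hD
  have hD0 : 0 < D := Nat.factorial_pos N
  have hdvd : ∀ k, orderOf (g k) ∣ D := fun k => Nat.dvd_factorial (hg k) (hN k)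
  have hND : N ∣ D := Nat.dvd_factorial hN0 le_rfl
  set w : Fin m → ℕ := fun k => D / orderOf (g k) with hw
  have hw0 : ∀ k, 0 < w k := fun k => Nat.div_pos (Nat.le_of_dvd hD0 (hdvd k)) (hg k)
  have hwD : ∀ k, w k * orderOf (g k) = D := fun k => Nat.div_mul_cancel (hdvd k)
  set T : ℕ := D - D / N with hT
  have hDN : D / N ≤ D := Nat.div_le_self _ _
  have hDNw : ∀ k, D / N ≤ w k := fun k => Nat.div_le_div_left (hN k) (hg k)
  have hDq : (0 : ℚ) < D := by exact_mod_cast hD0
  have hTq : (T : ℚ) = D * (1 - 1 / N) := by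
    rw [hT, Nat.cast_sub hDN, rat_w hN0 hND]; ring
  set l : List (Fin m) := (Finset.univ : Finset (Fin m)).sort (· ≤ ·) with hl
  set P : G → MvPolynomial (Fin m) ℚ := fun x => coef g (fun k => X k ^ w k) l x with hP
  obtain ⟨K, _, f, V, hf, hV, i0, hi0⟩ := exists_zero m (R.image P) (by
    intro p hp
    obtain ⟨x, hx, rfl⟩ := Finset.mem_image.1 hp
    have hx1 : x ≠ 1 := fun h => h1R (h ▸ hx)
    rw [hP]
    simp only
    rw [coef_map]
    apply coef_zero _ _ _ _ _ hx1
    intro k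
    rw [map_pow, constantCoeff_X, zero_pow (hw0 k).ne']) (Finset.card_image_le.trans_lt hcon)
  set v := V.valuation with hv
  set y : Fin m → K := fun k => f (X k) with hy
  obtain ⟨k0, -, hk0⟩ := Finset.exists_max_image (Finset.univ : Finset (Fin m))
    (fun k => v (y k)) ⟨i0, Finset.mem_univ _⟩
  have hγ0 : 0 < v (y k0) := by
    refine lt_of_lt_of_le ?_ (hk0 i0 (Finset.mem_univ _))
    exact (v.pos_iff).2 hi0
  have hγ1 : v (y k0) < 1 := (ValuationSubring.mem_nonunits_iff V).1 (hV k0)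
  refine key g v y k0 (v (y k0)) rfl hγ0 hγ1 (fun k => hk0 k (Finset.mem_univ _)) w D T hw0 hwD
    hg (Nat.sub_le _ _) (by have := hDNw k0; omega) l (by simp [hl]) ?_ ?_
  · intro L hL hne hprod
    obtain ⟨hnd, hs⟩ := sub_sort hL
    have h1 := hvalid L.toFinset (by
      obtain ⟨a, ha⟩ := List.exists_mem_of_ne_nil L hne
      exact ⟨a, List.mem_toFinset.2 ha⟩) (by rw [hs, hprod])
    have h2 := sum_w g D hg hdvd hnd
    have h3 : (D : ℚ) < (((L.map w).sum : ℕ) : ℚ) := by
      rw [hw, h2]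
      calc (D : ℚ) = D * 1 := (mul_one _).symm
        _ < _ := mul_lt_mul_of_pos_left h1 hDq
    exact_mod_cast h3
  · rintro x hx ⟨L, hL, hprod, hsum⟩
    obtain ⟨hnd, hs⟩ := sub_sort hL
    have h2 := sum_w g D hg hdvd hnd
    have h3 : (((L.map w).sum : ℕ) : ℚ) ≤ T := by exact_mod_cast hsum
    rw [hw, h2, hTq] at h3
    have h4 := le_of_mul_le_mul_left h3 hDq
    have h5 := hR L.toFinset (by rw [hs, hprod]; exact hx) h4
    rw [hs, hprod] at h5
    have h6 := hf (P x) (Finset.mem_image_of_mem _ h5)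
    rw [hP] at h6
    simp only at h6
    rw [coef_map] at h6
    simpa [hy] using h6

end Pool.Agent.H91.ZS
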