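import Pool.Agent.H91.ZSVal

set_option autoImplicit false

/-!
# Product-one subsequences in index order: the coefficients of `∏ (1 - c_k g_k)`
-/

namespace Pool.Agent.H91.ZS

open MonoidAlgebra

section coef

variable {G : Type*} [Group G] {m : ℕ} (g : Fin m → G)

open Classical in
/-- The coefficient at `x` of the ordered product of `1 - c k * g k` over the list. -/
noncomputable def coef {R : Type*} [CommRing R] (c : Fin m → R) : List (Fin m) → G → R
  | [], x => if x = 1 then 1 else 0
  | k :: l, x => coef c l x - c k * coef c l ((g k)⁻¹ * x)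

theorem coef_map {R S : Type*} [CommRing R] [CommRing S] (f : R →+* S) (c : Fin m → R)
    (l : List (Fin m)) (x : G) : f (coef g c l x) = coef g (fun k => f (c k)) l x := by
  induction l generalizing x with
  | nil => simp only [coef]; split_ifs <;> simp
  | cons k l ih => simp only [coef, map_sub, map_mul, ih]

theorem coef_zero {R : Type*} [CommRing R] (c : Fin m → R) (hc : ∀ k, c k = 0)
    (l : List (Fin m)) (x : G) (hx : x ≠ 1) : coef g c l x = 0 := by
  induction l with
  | nil => simp [coef, hx]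
  | cons k l ih => simp only [coef, ih, hc k, zero_mul, sub_zero]

/-- The factor `c k * g k` of the group algebra. -/
noncomputable def fac {R : Type*} [CommRing R] (c : Fin m → R) (k : Fin m) : MonoidAlgebra R G :=
  MonoidAlgebra.single (g k) (c k)

theorem prod_apply {R : Type*} [CommRing R] (c : Fin m → R) (l : List (Fin m)) (x : G) :
    (l.map (fun k => 1 - fac g c k)).prod.coeff x = coef g c l x := by
  classical
  induction l generalizing x with
  | nil =>
    simp only [List.map_nil, List.prod_nil, coef, MonoidAlgebra.one_def]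
    rw [MonoidAlgebra.coeff_single, Finsupp.single_apply]
    by_cases h : x = 1
    · simp [h]
    · rw [if_neg h, if_neg (fun h' => h h'.symm)]
  | cons k l ih =>
    rw [List.map_cons, List.prod_cons, sub_mul, one_mul]
    simp only [coef]
    rw [MonoidAlgebra.coeff_sub, Finsupp.sub_apply, ih, fac,
      MonoidAlgebra.coeff_single_mul_apply, ih]

end coef

section val

variable {G : Type*} [Group G] {m : ℕ} (g : Fin m → G)
variable {K Γ : Type*} [Field K] [LinearOrderedCommGroupWithZero Γ] (v : Valuation K Γ)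

theorem coef_le (c : Fin m → K) (γ : Γ) (hγ : γ ≤ 1) (w : Fin m → ℕ)
    (hc : ∀ k, v (c k) ≤ γ ^ w k) (l : List (Fin m)) (x : G) (τ : ℕ)
    (h : ∀ L : List (Fin m), L.Sublist l → (L.map g).prod = x → τ ≤ (L.map w).sum) :
    v (coef g c l x) ≤ γ ^ τ := by
  induction l generalizing x τ with
  | nil =>
    simp only [coef]
    split_ifs with hx
    · have h0 : τ ≤ 0 := by simpa using h [] (List.Sublist.refl _) (by simp [hx])
      obtain rfl : τ = 0 := by omega
      simp
    · simp
  | cons k l ih =>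
    simp only [coef]
    refine (v.map_sub _ _).trans (max_le ?_ ?_)
    · exact ih x τ fun L hL hx => h L (hL.cons k) hx
    · rw [map_mul]
      have h1 : v (coef g c l ((g k)⁻¹ * x)) ≤ γ ^ (τ - w k) := by
        apply ih
        intro L hL hx
        have h2 := h (k :: L) (hL.cons_cons k) (by
          rw [List.map_cons, List.prod_cons, hx, mul_inv_cancel_left])
        rw [List.map_cons, List.sum_cons] at h2
        omega
      calc v (c k) * v (coef g c l ((g k)⁻¹ * x)) ≤ γ ^ w k * γ ^ (τ - w k) :=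
            mul_le_mul' (hc k) h1
        _ = γ ^ (w k + (τ - w k)) := (pow_add _ _ _).symm
        _ ≤ γ ^ τ := pow_le_pow_right_of_le_one' hγ (by omega)

theorem coef_one_le (c : Fin m → K) (γ : Γ) (hγ : γ ≤ 1) (w : Fin m → ℕ)
    (hc : ∀ k, v (c k) ≤ γ ^ w k) (l : List (Fin m)) (τ : ℕ)
    (h : ∀ L : List (Fin m), L.Sublist l → L ≠ [] → (L.map g).prod = 1 →
      τ ≤ (L.map w).sum) :
    v (coef g c l 1 - 1) ≤ γ ^ τ := by
  induction l with
  | nil => simp [coef]
  | cons k l ih =>
    simp only [coef]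
    have e : coef g c l 1 - c k * coef g c l ((g k)⁻¹ * 1) - 1 =
        (coef g c l 1 - 1) - c k * coef g c l ((g k)⁻¹ * 1) := by ring
    rw [e]
    refine (v.map_sub _ _).trans (max_le ?_ ?_)
    · exact ih fun L hL hne hx => h L (hL.cons k) hne hx
    · rw [map_mul]
      have h1 : v (coef g c l ((g k)⁻¹ * 1)) ≤ γ ^ (τ - w k) := by
        apply coef_le g v c γ hγ w hc
        intro L hL hx
        have h2 := h (k :: L) (hL.cons_cons k) (by simp) (by
          rw [List.map_cons, List.prod_cons, hx, mul_inv_cancel_left])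
        rw [List.map_cons, List.sum_cons] at h2
        omega
      calc v (c k) * v (coef g c l ((g k)⁻¹ * 1)) ≤ γ ^ w k * γ ^ (τ - w k) :=
            mul_le_mul' (hc k) h1
        _ = γ ^ (w k + (τ - w k)) := (pow_add _ _ _).symm
        _ ≤ γ ^ τ := pow_le_pow_right_of_le_one' hγ (by omega)

/-- All coefficients have valuation at most `ε`. -/
def bd (ε : Γ) (x : MonoidAlgebra K G) : Prop := ∀ h, v (x.coeff h) ≤ ε

theorem bd_mul {ε δ : Γ} {x y : MonoidAlgebra K G} (hx : bd v ε x) (hy : bd v δ y) :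
    bd v (ε * δ) (x * y) := by
  intro h
  rw [MonoidAlgebra.coeff_mul_apply_left, Finsupp.sum]
  refine Valuation.map_sum_le v fun i _ => ?_
  rw [map_mul]
  exact mul_le_mul' (hx i) (hy _)

theorem tr_comm (x y : MonoidAlgebra K G) : (x * y).coeff 1 = (y * x).coeff 1 := by
  induction x using MonoidAlgebra.induction_linear with
  | zero => simp
  | add a b ha hb =>
    rw [add_mul, mul_add, MonoidAlgebra.coeff_add, MonoidAlgebra.coeff_add, Finsupp.add_apply,
      Finsupp.add_apply, ha, hb]
  | single a r =>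
    rw [MonoidAlgebra.coeff_single_mul_apply, MonoidAlgebra.coeff_mul_single_apply, mul_one,
      one_mul, mul_comm]

theorem bd_prod (c : Fin m → K) (hc : ∀ k, v (c k) ≤ 1) (l : List (Fin m)) :
    bd v 1 (l.map (fun k => 1 - fac g c k)).prod := by
  intro h
  rw [prod_apply]
  simpa using coef_le g v c 1 le_rfl (fun _ => 0) (by simpa using hc) l h 0
    (fun _ _ _ => Nat.zero_le _)

theorem inv_fac (c : Fin m → K) (k : Fin m) (hg : 0 < orderOf (g k)) (hc : v (c k) < 1) :
    ∃ b : MonoidAlgebra K G, b * (1 - fac g c k) = 1 ∧ (1 - fac g c k) * b = 1 ∧ bd v 1 b ∧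
      b.coeff 1 = (1 - c k ^ orderOf (g k))⁻¹ := by
  classical
  set ℓ := orderOf (g k) with hℓ
  set u : K := 1 - c k ^ ℓ with hu
  have hcl : v (c k ^ ℓ) < 1 := by
    rw [map_pow]; exact pow_lt_one' hc hg.ne'
  have hvu : v u = 1 := v.map_one_sub_of_lt hcl
  have hu0 : u ≠ 0 := by
    intro h; rw [h, map_zero] at hvu; exact zero_ne_one hvu
  have hpow : (1 : MonoidAlgebra K G) - fac g c k ^ ℓ = u • 1 := by
    rw [fac, MonoidAlgebra.single_pow, hℓ, pow_orderOf_eq_one, hu, sub_smul, one_smul,
      MonoidAlgebra.one_def, MonoidAlgebra.smul_single, smul_eq_mul, mul_one]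
  have hco : ∀ i h, (fac g c k ^ i).coeff h = if (g k) ^ i = h then (c k) ^ i else 0 := by
    intro i h
    rw [fac, MonoidAlgebra.single_pow, MonoidAlgebra.coeff_single, Finsupp.single_apply]
  refine ⟨u⁻¹ • ∑ i ∈ Finset.range ℓ, fac g c k ^ i, ?_, ?_, ?_, ?_⟩
  · rw [smul_mul_assoc, geom_sum_mul_neg, hpow, smul_smul, inv_mul_cancel₀ hu0, one_smul]
  · rw [mul_smul_comm, mul_neg_geom_sum, hpow, smul_smul, inv_mul_cancel₀ hu0, one_smul]
  · intro h
    rw [MonoidAlgebra.coeff_smul_apply, smul_eq_mul, map_mul, map_inv₀, hvu, inv_one, one_mul,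
      MonoidAlgebra.coeff_sum, Finsupp.finsetSum_apply]
    refine Valuation.map_sum_le v fun i _ => ?_
    rw [hco]
    split_ifs
    · rw [map_pow]; exact pow_le_one' hc.le i
    · simp
  · rw [MonoidAlgebra.coeff_smul_apply, smul_eq_mul, MonoidAlgebra.coeff_sum,
      Finsupp.finsetSum_apply, Finset.sum_eq_single 0]
    · rw [hco]; simp
    · intro i hi hi0
      rw [hco, if_neg]
      exact pow_ne_one_of_lt_orderOf hi0 (by simpa using hi)
    · intro h; exact absurd (Finset.mem_range.2 hg) h

theorem inv_prod (c : Fin m → K) (hg : ∀ k, 0 < orderOf (g k)) (hc : ∀ k, v (c k) < 1)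
    (l : List (Fin m)) :
    ∃ b : MonoidAlgebra K G, b * (l.map (fun k => 1 - fac g c k)).prod = 1 ∧
      (l.map (fun k => 1 - fac g c k)).prod * b = 1 ∧ bd v 1 b := by
  induction l with
  | nil =>
    refine ⟨1, by simp, by simp, ?_⟩
    simpa using bd_prod g v c (fun k => (hc k).le) []
  | cons k l ih =>
    obtain ⟨b, h1, h2, h3⟩ := ih
    obtain ⟨a, h4, h5, h6, -⟩ := inv_fac g v c k (hg k) (hc k)
    refine ⟨b * a, ?_, ?_, by simpa using bd_mul v h3 h6⟩
    · rw [List.map_cons, List.prod_cons, mul_assoc, ← mul_assoc a, h4, one_mul, h1]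
    · rw [List.map_cons, List.prod_cons, mul_assoc, ← mul_assoc _ b, h2, one_mul, h5]

/-- The contradiction: the product of all factors cannot be `1` up to terms which are too small. -/
theorem key (y : Fin m → K) (k0 : Fin m) (γ : Γ) (hγ : v (y k0) = γ) (hγ0 : 0 < γ) (hγ1 : γ < 1)
    (hy : ∀ k, v (y k) ≤ γ) (w : Fin m → ℕ) (D T : ℕ) (hw0 : ∀ k, 0 < w k)
    (hw : ∀ k, w k * orderOf (g k) = D) (hg : ∀ k, 0 < orderOf (g k)) (hT : T ≤ D)
    (hTw : D ≤ T + w k0) (l : List (Fin m)) (hk0 : k0 ∈ l)
    (hvalid : ∀ L : List (Fin m), L.Sublist l → L ≠ [] → (L.map g).prod = 1 →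
      D + 1 ≤ (L.map w).sum)
    (hZ : ∀ x : G, x ≠ 1 → (∃ L : List (Fin m), L.Sublist l ∧ (L.map g).prod = x ∧
      (L.map w).sum ≤ T) → coef g (fun k => y k ^ w k) l x = 0) : False := by
  set c : Fin m → K := fun k => y k ^ w k with hc
  have hcw : ∀ k, v (c k) ≤ γ ^ w k := by
    intro k; rw [hc]; simp only [map_pow]; exact pow_le_pow_left' (hy k) _
  have hc1 : ∀ k, v (c k) < 1 := fun k => (hcw k).trans_lt (pow_lt_one' hγ1 (hw0 k).ne')
  obtain ⟨l1, l2, hl⟩ := List.append_of_mem hk0
  obtain ⟨b, hb1, hb2, hb3, hb4⟩ := inv_fac g v c k0 (hg k0) (hc1 k0)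
  obtain ⟨L', hL1, hL2, hL3⟩ := inv_prod g v c hg hc1 l1
  obtain ⟨Q', hQ1, hQ2, hQ3⟩ := inv_prod g v c hg hc1 l2
  set A : MonoidAlgebra K G := fac g c k0 with hA
  set L := (l1.map (fun k => 1 - fac g c k)).prod with hLdef
  set Q := (l2.map (fun k => 1 - fac g c k)).prod with hQdef
  have hLQ : ((l1 ++ l2).map (fun k => 1 - fac g c k)).prod = L * Q := by
    rw [List.map_append, List.prod_append]
  have hM : (l.map (fun k => 1 - fac g c k)).prod = L * ((1 - A) * Q) := by
    rw [hl, List.map_append, List.prod_append, List.map_cons, List.prod_cons]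
  set M := L * ((1 - A) * Q) with hMdef
  set X := L * (A * Q) with hXdef
  have hMX : M + X = L * Q := by
    rw [hMdef, hXdef]; noncomm_ring
  set M' := Q' * (b * L') with hM'def
  have hM'M : M' * M = 1 := by
    rw [hM'def, hMdef]
    calc Q' * (b * L') * (L * ((1 - A) * Q)) = Q' * (b * (L' * L) * (1 - A)) * Q := by
          simp only [mul_assoc]
      _ = 1 := by rw [hL1, mul_one, hb1, mul_one, hQ1]
  have hM'X : M' * X = Q' * (b * A) * Q := by
    rw [hM'def, hXdef]
    calc Q' * (b * L') * (L * (A * Q)) = Q' * (b * (L' * L) * A) * Q := by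
          simp only [mul_assoc]
      _ = Q' * (b * A) * Q := by rw [hL1, mul_one]
  have hbA : b * A = b - 1 := by
    have h1 : b * (1 - A) = b - b * A := by rw [mul_sub, mul_one]
    rw [hb1] at h1
    rw [h1]; abel
  set u : K := 1 - c k0 ^ orderOf (g k0) with hu
  have hcD : c k0 ^ orderOf (g k0) = y k0 ^ D := by
    rw [hc]; simp only [← pow_mul, hw]
  have hD0 : 0 < D := by rw [← hw k0]; exact Nat.mul_pos (hw0 k0) (hg k0)
  have hyD : v (y k0 ^ D) < 1 := by rw [map_pow, hγ]; exact pow_lt_one' hγ1 hD0.ne'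
  have hvu : v u = 1 := by rw [hu, hcD]; exact v.map_one_sub_of_lt hyD
  have hu0 : u ≠ 0 := by
    intro h; rw [h, map_zero] at hvu; exact zero_ne_one hvu
  -- the trace of `M' X`
  have htr : (M' * X).coeff 1 = u⁻¹ * y k0 ^ D := by
    rw [hM'X, tr_comm, ← mul_assoc, hQ2, one_mul, hbA, MonoidAlgebra.coeff_sub,
      Finsupp.sub_apply, hb4, MonoidAlgebra.coeff_one_one, ← hcD]
    have : c k0 ^ orderOf (g k0) = 1 - u := by rw [hu]; ring
    rw [this]
    field_simp
  have hvtr : v ((M' * X).coeff 1) = γ ^ D := by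
    rw [htr, map_mul, map_inv₀, hvu, inv_one, one_mul, map_pow, hγ]
  -- the other evaluation
  set Z := M - 1 with hZdef
  have hMX2 : M' * X = X - M' * Z * X := by
    have h1 : M' * Z = 1 - M' := by rw [hZdef, mul_sub, hM'M, mul_one]
    rw [h1, sub_mul, one_mul]; abel
  have hγle := hγ1.le
  have hXtr : v (X.coeff 1) ≤ γ ^ (D + 1) := by
    have h1 : X = L * Q - M := by rw [← hMX]; abel
    have h2 : v ((L * Q).coeff 1 - 1) ≤ γ ^ (D + 1) := by
      rw [← hLQ, prod_apply]
      refine coef_one_le g v c γ hγle w hcw _ _ fun P hP hne hx => ?_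
      refine hvalid P (hP.trans ?_) hne hx
      rw [hl]
      exact (List.Sublist.refl l1).append (List.sublist_cons_self _ _)
    have h3 : v (M.coeff 1 - 1) ≤ γ ^ (D + 1) := by
      rw [← hM, prod_apply]
      exact coef_one_le g v c γ hγle w hcw _ _ hvalid
    have h4 : X.coeff 1 = ((L * Q).coeff 1 - 1) - (M.coeff 1 - 1) := by
      rw [h1, MonoidAlgebra.coeff_sub, Finsupp.sub_apply]; ring
    rw [h4]
    exact (v.map_sub _ _).trans (max_le h2 h3)
  have hZbd : bd v (γ ^ (T + 1)) Z := by
    classical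
    intro x
    rw [hZdef, MonoidAlgebra.coeff_sub, Finsupp.sub_apply]
    by_cases hx : x = 1
    · subst hx
      rw [MonoidAlgebra.coeff_one_one, ← hM, prod_apply]
      refine (coef_one_le g v c γ hγle w hcw _ _ hvalid).trans ?_
      exact pow_le_pow_right_of_le_one' hγle (by omega)
    · have h1 : (1 : MonoidAlgebra K G).coeff x = 0 := by
        rw [MonoidAlgebra.one_def, MonoidAlgebra.coeff_single, Finsupp.single_apply,
          if_neg (fun h => hx h.symm)]
      rw [h1, sub_zero, ← hM, prod_apply]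
      by_cases hR : ∃ P : List (Fin m), P.Sublist l ∧ (P.map g).prod = x ∧ (P.map w).sum ≤ T
      · rw [hZ x hx hR]; simp
      · refine coef_le g v c γ hγle w hcw _ _ _ fun P hP hPx => ?_
        by_contra hcon
        exact hR ⟨P, hP, hPx, by omega⟩
  have hAbd : bd v (γ ^ w k0) A := by
    classical
    intro x
    rw [hA, fac, MonoidAlgebra.coeff_single, Finsupp.single_apply]
    split_ifs
    · exact hcw k0
    · simp
  have hXbd : bd v (γ ^ w k0) X := by
    have h1 := bd_mul v (bd_prod g v c (fun k => (hc1 k).le) l1)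
      (bd_mul v hAbd (bd_prod g v c (fun k => (hc1 k).le) l2))
    rwa [one_mul, mul_one] at h1
  have hM'bd : bd v 1 M' := by
    have h1 := bd_mul v hQ3 (bd_mul v hb3 hL3)
    rwa [one_mul, one_mul] at h1
  have hMZX : v ((M' * Z * X).coeff 1) ≤ γ ^ (D + 1) := by
    have h1 := bd_mul v (bd_mul v hM'bd hZbd) hXbd 1
    rw [one_mul, ← pow_add] at h1
    exact h1.trans (pow_le_pow_right_of_le_one' hγle (by omega))
  have hfin : γ ^ D ≤ γ ^ (D + 1) := by
    rw [← hvtr, hMX2, MonoidAlgebra.coeff_sub, Finsupp.sub_apply]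
    exact (v.map_sub _ _).trans (max_le hXtr hMZX)
  have hlt : γ ^ (D + 1) < γ ^ D := by
    rw [pow_succ]
    exact mul_lt_of_lt_one_right (pow_pos hγ0 D) hγ1
  exact absurd hfin (not_le.2 hlt)

end val

end Pool.Agent.H91.ZS
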