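import Mathlib

set_option autoImplicit false

/-!
# Fewer polynomials than variables: a common zero in a valuation ring, close to the origin
-/

namespace Pool.Agent.H91.ZS

open MvPolynomial

/-- The endomorphism killing the first `i` variables. -/
noncomputable def kill (m i : ℕ) : MvPolynomial (Fin m) ℚ →+* MvPolynomial (Fin m) ℚ :=
  eval₂Hom C (fun j => if (j : ℕ) < i then 0 else X j)

theorem kill_X (m i : ℕ) (j : Fin m) :
    kill m i (X j) = if (j : ℕ) < i then 0 else X j := by
  simp [kill]

theorem kill_comp (m i : ℕ) : (kill m (i + 1)).comp (kill m i) = kill m (i + 1) := by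
  apply MvPolynomial.ringHom_ext
  · intro r; simp [kill]
  · intro j
    rw [RingHom.comp_apply, kill_X]
    split_ifs with h
    · rw [kill_X, if_pos (by omega), map_zero]
    · rfl

theorem ker_lt (m i : ℕ) (hi : i < m) : RingHom.ker (kill m i) < RingHom.ker (kill m (i + 1)) := by
  refine lt_of_le_of_ne ?_ ?_
  · intro p hp
    rw [RingHom.mem_ker] at hp ⊢
    rw [← kill_comp, RingHom.comp_apply, hp, map_zero]
  · intro h
    have h1 : (X ⟨i, hi⟩ : MvPolynomial (Fin m) ℚ) ∈ RingHom.ker (kill m (i + 1)) := by
      rw [RingHom.mem_ker, kill_X, if_pos (by simp)]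
    rw [← h, RingHom.mem_ker, kill_X, if_neg (by simp)] at h1
    exact MvPolynomial.X_ne_zero _ h1

theorem le_height_ker (m i : ℕ) (hi : i ≤ m) : (i : ℕ∞) ≤ (RingHom.ker (kill m i)).height := by
  induction i with
  | zero => simp
  | succ i ih =>
    have := RingHom.ker_isPrime (kill m i)
    have := RingHom.ker_isPrime (kill m (i + 1))
    have h := Ideal.height_add_one_le_of_lt_of_isPrime (ker_lt m i (by omega))
    push_cast
    exact (by gcongr; exact ih (by omega) : (i : ℕ∞) + 1 ≤ (RingHom.ker (kill m i)).height + 1).trans h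

theorem kill_all (m : ℕ) : kill m m = C.comp (constantCoeff (R := ℚ) (σ := Fin m)) := by
  apply MvPolynomial.ringHom_ext
  · intro r; simp [kill]
  · intro j
    rw [kill_X, if_pos j.2]; simp

theorem mem_ker_all (m : ℕ) (p : MvPolynomial (Fin m) ℚ) :
    p ∈ RingHom.ker (kill m m) ↔ constantCoeff p = 0 := by
  rw [RingHom.mem_ker, kill_all, RingHom.comp_apply]
  exact ⟨fun h => C_injective _ _ (by rw [h, map_zero]), fun h => by rw [h, map_zero]⟩

/-- Fewer than `m` polynomials without constant term in `m` variables have a common zero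
in the maximal ideal of a valuation ring, different from the origin. -/
theorem exists_zero (m : ℕ) (s : Finset (MvPolynomial (Fin m) ℚ))
    (hs : ∀ p ∈ s, constantCoeff p = 0) (hc : s.card < m) :
    ∃ (K : Type) (_ : Field K) (f : MvPolynomial (Fin m) ℚ →+* K) (V : ValuationSubring K),
      (∀ p ∈ s, f p = 0) ∧ (∀ i, f (X i) ∈ V.nonunits) ∧ ∃ i, f (X i) ≠ 0 := by
  classical
  set M := RingHom.ker (kill m m) with hM
  have hMp : M.IsPrime := RingHom.ker_isPrime (kill m m)
  have hJ : Ideal.span (s : Set (MvPolynomial (Fin m) ℚ)) ≤ M := by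
    rw [Ideal.span_le]
    intro p hp
    exact (mem_ker_all m p).2 (hs p hp)
  obtain ⟨P, hP, hPM⟩ := Ideal.exists_minimalPrimes_le hJ
  have hPp : P.IsPrime := hP.1.1
  have hne : P ≠ M := by
    rintro rfl
    have h1 := Ideal.height_le_card_of_mem_minimalPrimes_span_finset hP
    have h2 := (le_height_ker m m le_rfl).trans h1
    have h3 : m ≤ s.card := by exact_mod_cast h2
    omega
  let B := MvPolynomial (Fin m) ℚ ⧸ P
  let K := FractionRing B
  let f : MvPolynomial (Fin m) ℚ →+* K := (algebraMap B K).comp (Ideal.Quotient.mk P)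
  have hf : ∀ p, f p = 0 ↔ p ∈ P := by
    intro p
    rw [RingHom.comp_apply, map_eq_zero_iff _ (IsFractionRing.injective B K),
      Ideal.Quotient.eq_zero_iff_mem]
  have hI : Ideal.map f.rangeRestrict M ≠ ⊤ := by
    intro h
    have h1 : (1 : f.range) ∈ Ideal.map f.rangeRestrict M := by rw [h]; trivial
    obtain ⟨a, ha, ha1⟩ := (Ideal.mem_map_iff_of_surjective _ f.rangeRestrict_surjective).1 h1
    have h2 : f a = 1 := by simpa using congrArg Subtype.val ha1
    have h3 : f (a - 1) = 0 := by rw [map_sub, h2, map_one, sub_self]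
    have h4 : a - 1 ∈ M := hPM ((hf _).1 h3)
    have h5 : (1 : MvPolynomial (Fin m) ℚ) ∈ M := by
      have := M.sub_mem ha h4
      simpa using this
    exact hMp.ne_top ((Ideal.eq_top_iff_one M).2 h5)
  obtain ⟨V, -, hV⟩ := Ideal.image_subset_nonunits_valuationSubring
    (Ideal.map f.rangeRestrict M) hI
  refine ⟨K, inferInstance, f, V, ?_, ?_, ?_⟩
  · intro p hp
    exact (hf p).2 (hP.1.2 (Ideal.subset_span hp))
  · intro i
    apply hV
    refine ⟨f.rangeRestrict (X i), Ideal.mem_map_of_mem _ ?_, rfl⟩
    rw [mem_ker_all]; simp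
  · by_contra hcon
    push Not at hcon
    apply hne
    refine le_antisymm hPM ?_
    intro p hp
    rw [mem_ker_all] at hp
    have key : f = (f.comp C).comp constantCoeff := by
      apply MvPolynomial.ringHom_ext
      · intro r; simp
      · intro j; simp [hcon j]
    rw [← hf, key, RingHom.comp_apply, hp, map_zero]

end Pool.Agent.H91.ZS
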